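import Pool.Agent.Helper27.BG.St3
import Pool.Agent.Helper60.GP.St
import Pool.Agent.Helper90.MT.A13a
import Pool.Agent.Helper90.MT.A13b

/-! BG module BVF: Bombieri-Vinogradov for `fM` with divisor weights. -/

set_option autoImplicit false

noncomputable section

namespace Pool.Agent.Helper27.BG

open Finset ArithmeticFunction
open Pool.Agent.Helper60.GP (IsB JJ Err II)
open Pool.Agent.Helper15.AB (Th)

theorem bvf_zero {ω : ℝ → ℝ} (h : IsB ω) : ω 0 = 0 := by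
  have hc : IsClosed {t | ω t = 0} := isClosed_eq h.smooth.continuous continuous_const
  have h1 : Set.Iio (0 : ℝ) ⊆ {t | ω t = 0} := by
    intro t ht
    exact h.supp t fun h2 => absurd h2.1 (not_le.2 ht)
  have h2 := closure_minimal h1 hc
  rw [closure_Iio] at h2
  exact h2 (Set.mem_Iic.2 le_rfl)

theorem bvf_lo {ω : ℝ → ℝ} (h : IsB ω) {M n : ℕ} (hM : 1 ≤ M) (h1 : 1 ≤ n) (hn : n ≤ M) :
    ω (Real.log (n / M)) = 0 := by
  have hM0 : (0 : ℝ) < M := by exact_mod_cast hM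
  have hn0 : (0 : ℝ) < n := by exact_mod_cast h1
  have hle : (n : ℝ) / M ≤ 1 := by
    rw [div_le_one hM0]
    exact_mod_cast hn
  have h2 : Real.log (n / M) ≤ 0 := Real.log_nonpos (by positivity) hle
  rcases h2.lt_or_eq with h3 | h3
  · exact h.supp _ fun h4 => absurd h4.1 (not_le.2 h3)
  · rw [h3]
    exact bvf_zero h

theorem bvf_hi {ω : ℝ → ℝ} (h : IsB ω) {M n : ℕ} (hM : 1 ≤ M) (hn : 3 * M < n) :
    ω (Real.log (n / M)) = 0 := by
  have hM0 : (0 : ℝ) < M := by exact_mod_cast hM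
  have hn0 : (3 : ℝ) * M < n := by exact_mod_cast hn
  have hn1 : (0 : ℝ) < n := by linarith
  refine h.supp _ fun h4 => absurd h4.2 (not_le.2 ?_)
  rw [Real.lt_log_iff_exp_lt (by positivity)]
  have h5 : (3 : ℝ) < n / M := by
    rw [lt_div_iff₀ hM0]
    exact hn0
  linarith [Real.exp_one_lt_d9]

/-- the discrepancy -/
def bvfD (ω : ℝ → ℝ) (M q a : ℕ) : ℝ :=
  |∑ n ∈ (Ioc M (4 * M)).filter (fun n => n ≡ a [MOD q]), fM ω M n - Th ω M / q.totient|

/-- the weighted von Mangoldt function -/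
def bvfF (ω : ℝ → ℝ) (M n : ℕ) : ℝ := Λ n * ω (Real.log (n / M))

theorem bvf_F_nonneg {ω : ℝ → ℝ} (h : IsB ω) (M n : ℕ) : 0 ≤ bvfF ω M n :=
  mul_nonneg vonMangoldt_nonneg (h.nonneg _)

theorem bvf_f_eq {ω : ℝ → ℝ} (M n : ℕ) : fM ω M n = if n.Prime then bvfF ω M n else 0 := by
  unfold fM bvfF
  split_ifs with h1
  · rw [vonMangoldt_apply_prime h1]
  · rfl

theorem bvf_floor (M : ℕ) : ⌊3 * (M : ℝ)⌋₊ = 3 * M := by
  have : (3 : ℝ) * M = ((3 * M : ℕ) : ℝ) := by push_cast; ring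
  rw [this, Nat.floor_natCast]

theorem bvf_sum1 {ω : ℝ → ℝ} (h : IsB ω) {M : ℕ} (hM : 1 ≤ M) (q b : ℕ) :
    ∑ n ∈ (Ioc M (4 * M)).filter (fun n => n ≡ b [MOD q]), fM ω M n =
      ∑ n ∈ (Icc 1 (4 * M)).filter (fun n => n ≡ b [MOD q]), fM ω M n := by
  refine sum_subset ?_ ?_
  · intro n hn
    rw [mem_filter, mem_Ioc] at hn
    rw [mem_filter, mem_Icc]
    exact ⟨⟨by omega, hn.1.2⟩, hn.2⟩
  · intro n hn hn'
    rw [mem_filter, mem_Icc] at hn
    rw [mem_filter, mem_Ioc] at hn'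
    have hle : n ≤ M := by
      by_contra hc
      exact hn' ⟨⟨by omega, hn.1.2⟩, hn.2⟩
    rw [bvf_f_eq]
    unfold bvfF
    rw [bvf_lo h hM hn.1.1 hle, mul_zero]
    split_ifs <;> rfl

theorem bvf_sum2 {ω : ℝ → ℝ} (h : IsB ω) {M : ℕ} (hM : 1 ≤ M) (q b : ℕ) :
    ∑ n ∈ (II (M : ℝ)).filter (fun n : ℕ => (q : ℤ) ∣ (n : ℤ) - (b : ℤ)),
      Λ n * ω (Real.log (n / (M : ℝ))) =
      ∑ n ∈ (Icc 1 (4 * M)).filter (fun n => n ≡ b [MOD q]), bvfF ω M n := by
  refine sum_subset ?_ ?_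
  · intro n hn
    rw [mem_filter] at hn
    unfold II at hn
    rw [bvf_floor, mem_Icc] at hn
    rw [mem_filter, mem_Icc]
    refine ⟨⟨hn.1.1, by omega⟩, ?_⟩
    rw [Nat.modEq_iff_dvd, dvd_sub_comm]
    exact hn.2
  · intro n hn hn'
    rw [mem_filter, mem_Icc] at hn
    rw [mem_filter] at hn'
    unfold II at hn'
    rw [bvf_floor, mem_Icc] at hn'
    have hlt : 3 * M < n := by
      by_contra hc
      apply hn'
      refine ⟨⟨hn.1.1, by omega⟩, ?_⟩
      rw [dvd_sub_comm, ← Nat.modEq_iff_dvd]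
      exact hn.2
    rw [bvf_hi h hM hlt, mul_zero]

/-- prime powers -/
theorem bvf_pp {ω : ℝ → ℝ} (h : IsB ω) {M : ℕ} (hM : 1 ≤ M) (q b : ℕ) :
    |∑ n ∈ (Icc 1 (4 * M)).filter (fun n => n ≡ b [MOD q]), bvfF ω M n -
      ∑ n ∈ (Icc 1 (4 * M)).filter (fun n => n ≡ b [MOD q]), fM ω M n| ≤
      4 * √(M : ℝ) * Real.log (4 * M) := by
  classical
  have hM1 : (1 : ℝ) ≤ M := by exact_mod_cast hM
  rw [← sum_sub_distrib]
  have h1 : ∀ n, bvfF ω M n - fM ω M n = if n.Prime then 0 else bvfF ω M n := by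
    intro n
    rw [bvf_f_eq]
    split_ifs <;> ring
  have h0 : 0 ≤ ∑ n ∈ (Icc 1 (4 * M)).filter (fun n => n ≡ b [MOD q]),
      (bvfF ω M n - fM ω M n) := by
    refine sum_nonneg fun n _ => ?_
    rw [h1]
    split_ifs
    · exact le_rfl
    · exact bvf_F_nonneg h M n
  rw [abs_of_nonneg h0]
  have h2 := Chebyshev.psi_sub_theta_le (x := 4 * (M : ℝ)) (by linarith)
  rw [Chebyshev.psi_sub_theta_eq_sum_not_prime] at h2
  have hfl : ⌊4 * (M : ℝ)⌋₊ = 4 * M := by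
    have : (4 : ℝ) * M = ((4 * M : ℕ) : ℝ) := by push_cast; ring
    rw [this, Nat.floor_natCast]
  rw [hfl] at h2
  have hs : √(4 * (M : ℝ)) = 2 * √(M : ℝ) := by
    rw [Real.sqrt_mul (by norm_num), show (4 : ℝ) = 2 ^ 2 by norm_num,
      Real.sqrt_sq (by norm_num)]
  rw [hs] at h2
  calc ∑ n ∈ (Icc 1 (4 * M)).filter (fun n => n ≡ b [MOD q]), (bvfF ω M n - fM ω M n)
      ≤ ∑ n ∈ Icc 1 (4 * M), (if n.Prime then 0 else Λ n) := by
        refine (sum_le_sum fun n _ => ?_).trans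
          (sum_le_sum_of_subset_of_nonneg (filter_subset _ _) fun n _ _ => ?_)
        · rw [h1]
          split_ifs
          · exact le_rfl
          · unfold bvfF
            have := h.le_half (Real.log (n / M))
            exact mul_le_of_le_one_right vonMangoldt_nonneg (by linarith)
        · split_ifs
          · exact le_rfl
          · exact vonMangoldt_nonneg
    _ = ∑ n ∈ (Ioc 0 (4 * M)).filter (fun n => ¬ n.Prime), Λ n := by
        rw [sum_filter]
        refine sum_congr ?_ fun n _ => ?_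
        · ext n
          rw [mem_Icc, mem_Ioc]
          omega
        · by_cases hp : n.Prime
          · rw [if_pos hp, if_neg (not_not.2 hp)]
          · rw [if_neg hp, if_pos hp]
    _ ≤ _ := h2.trans (le_of_eq (by ring))

theorem bvf_disc_le {ω : ℝ → ℝ} (h : IsB ω) {M : ℕ} (hM : 1 ≤ M) (q b : ℕ) :
    bvfD ω M q b ≤ Err ω M q b + 4 * √(M : ℝ) * Real.log (4 * M) := by
  unfold bvfD Err
  rw [bvf_sum1 h hM, bvf_sum2 h hM]
  have h1 := bvf_pp h hM q b
  set S1 := ∑ n ∈ (Icc 1 (4 * M)).filter (fun n => n ≡ b [MOD q]), fM ω M n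
  set S2 := ∑ n ∈ (Icc 1 (4 * M)).filter (fun n => n ≡ b [MOD q]), bvfF ω M n
  have e : S1 - Th ω M / q.totient = (S2 - Th ω M / q.totient) - (S2 - S1) := by ring
  rw [e]
  exact (abs_sub _ _).trans (add_le_add le_rfl h1)

theorem bvf_triv {ω : ℝ → ℝ} (h : IsB ω) {M : ℕ} (hM : 1 ≤ M) {q : ℕ} (hq : 1 ≤ q)
    (hqM : q ≤ M) (b : ℕ) : bvfD ω M q b ≤ 4 * M * Real.log (4 * M) / q.totient := by
  have hM1 : (1 : ℝ) ≤ M := by exact_mod_cast hM
  have hφ0 : (0 : ℝ) < q.totient := by exact_mod_cast Nat.totient_pos.2 hq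
  have hφq : (q.totient : ℝ) ≤ q := by exact_mod_cast Nat.totient_le q
  have hL : 0 ≤ Real.log (4 * M) := Real.log_nonneg (by linarith)
  have hF : ∀ n ∈ Icc 1 (4 * M), bvfF ω M n ≤ Real.log (4 * M) / 2 := by
    intro n hn
    rw [mem_Icc] at hn
    have h1 : Λ n ≤ Real.log n := vonMangoldt_le_log
    have h2 : Real.log n ≤ Real.log (4 * M) := by
      refine Real.log_le_log (by exact_mod_cast hn.1) ?_
      exact_mod_cast hn.2
    unfold bvfF
    calc Λ n * ω (Real.log (n / M)) ≤ Real.log (4 * M) * (1 / 2) :=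
          mul_le_mul (h1.trans h2) (h.le_half _) (h.nonneg _) hL
      _ = _ := by ring
  have hf : ∀ n ∈ Icc 1 (4 * M), 0 ≤ fM ω M n ∧ fM ω M n ≤ Real.log (4 * M) / 2 := by
    intro n hn
    rw [bvf_f_eq]
    split_ifs
    · exact ⟨bvf_F_nonneg h M n, hF n hn⟩
    · exact ⟨le_rfl, by linarith⟩
  have hsub : ∀ n ∈ (Ioc M (4 * M)).filter (fun n => n ≡ b [MOD q]), n ∈ Icc 1 (4 * M) := by
    intro n hn
    rw [mem_filter, mem_Ioc] at hn
    rw [mem_Icc]
    exact ⟨by omega, hn.1.2⟩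
  set S := ∑ n ∈ (Ioc M (4 * M)).filter (fun n => n ≡ b [MOD q]), fM ω M n with hS
  have s0 : 0 ≤ S := sum_nonneg fun n hn => (hf n (hsub n hn)).1
  have s1 : S ≤ 4 * M * Real.log (4 * M) / q.totient := by
    calc S ≤ ∑ n ∈ (Ioc M (4 * M)).filter (fun n => n ≡ b [MOD q]), Real.log (4 * M) / 2 :=
          sum_le_sum fun n hn => (hf n (hsub n hn)).2
      _ = ((Ioc M (4 * M)).filter (fun n => n ≡ b [MOD q])).card * (Real.log (4 * M) / 2) := by
          rw [sum_const, nsmul_eq_mul]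
      _ ≤ (4 * M / q) * (Real.log (4 * M) / 2) :=
          mul_le_mul_of_nonneg_right
            (Pool.Agent.Helper90.MT.A13b.card_le M q b hM hq hqM) (by linarith)
      _ ≤ (4 * M / q.totient) * Real.log (4 * M) := by
          refine mul_le_mul ?_ (by linarith) (by linarith) (by positivity)
          exact div_le_div_of_nonneg_left (by positivity) hφ0 hφq
      _ = _ := by ring
  have t0 : 0 ≤ Th ω M := by
    unfold Th
    exact sum_nonneg fun n _ => mul_nonneg vonMangoldt_nonneg (h.nonneg _)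
  have t1 : Th ω M ≤ 4 * M * Real.log (4 * M) := by
    unfold Th
    rw [bvf_floor]
    calc ∑ n ∈ Icc 1 (3 * M), Λ n * ω (Real.log (n / (M : ℝ)))
        ≤ ∑ n ∈ Icc 1 (3 * M), Real.log (4 * M) / 2 := by
          refine sum_le_sum fun n hn => hF n ?_
          rw [mem_Icc] at hn ⊢
          omega
      _ = (3 * M) * (Real.log (4 * M) / 2) := by
          rw [sum_const, nsmul_eq_mul, Nat.card_Icc]
          congr 1
          push_cast
          ring
      _ ≤ _ := by nlinarith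
  have t2 : Th ω M / q.totient ≤ 4 * M * Real.log (4 * M) / q.totient :=
    div_le_div_of_nonneg_right t1 hφ0.le
  have t3 : 0 ≤ Th ω M / q.totient := div_nonneg t0 hφ0.le
  unfold bvfD
  rw [abs_le]
  constructor <;> linarith

/-- the worst class -/
theorem bvf_max (ω : ℝ → ℝ) (M q : ℕ) : ∃ b : ℕ, 1 ≤ q → (b.Coprime q ∧
    ∀ a : ℕ, a.Coprime q → bvfD ω M q a ≤ bvfD ω M q b) := by
  by_cases hq : 1 ≤ q
  swap
  · exact ⟨0, fun h => absurd h hq⟩
  have hne : ((range (q + 1)).filter (fun a => a.Coprime q)).Nonempty := by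
    refine ⟨1, ?_⟩
    rw [mem_filter, mem_range]
    exact ⟨by omega, Nat.coprime_one_left q⟩
  obtain ⟨b, hb, hmax⟩ := exists_max_image _ (bvfD ω M q) hne
  rw [mem_filter] at hb
  refine ⟨b, fun _ => ⟨hb.2, fun a ha => ?_⟩⟩
  have h1 : bvfD ω M q a = bvfD ω M q (a % q) := by
    unfold bvfD
    have : (fun n => n ≡ a [MOD q]) = fun n => n ≡ a % q [MOD q] := by
      funext n
      apply propext
      constructor
      · intro h
        exact h.trans (Nat.mod_modEq a q).symm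
      · intro h
        exact h.trans (Nat.mod_modEq a q)
    simp only [this]
  rw [h1]
  refine hmax _ ?_
  rw [mem_filter, mem_range]
  refine ⟨(Nat.mod_lt _ hq).trans (Nat.lt_succ_self q), ?_⟩
  have h2 := (Nat.mod_modEq a q).gcd_eq
  unfold Nat.Coprime at ha ⊢
  rw [h2]
  exact ha

theorem bvf_large (n : ℕ) (c : ℝ) : ∃ T : ℕ, ∀ M : ℕ, T ≤ M → 4 ≤ M ∧ c ≤ Real.log M ∧
    Real.log M ^ n ≤ (M : ℝ) ^ (1 / 10000 : ℝ) := by
  have h1 : Filter.Tendsto (fun M : ℕ => Real.log M) Filter.atTop Filter.atTop :=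
    Real.tendsto_log_atTop.comp tendsto_natCast_atTop_atTop
  have h2 : ∀ᶠ x : ℝ in Filter.atTop, ‖Real.log x ^ (n : ℝ)‖ ≤ 1 * ‖x ^ (1 / 10000 : ℝ)‖ :=
    (isLittleO_log_rpow_rpow_atTop (n : ℝ) (by norm_num : (0 : ℝ) < 1 / 10000)).bound one_pos
  have h3 : ∀ᶠ M : ℕ in Filter.atTop,
      ‖Real.log (M : ℝ) ^ (n : ℝ)‖ ≤ 1 * ‖(M : ℝ) ^ (1 / 10000 : ℝ)‖ :=
    tendsto_natCast_atTop_atTop.eventually h2
  have h4 := (Filter.eventually_ge_atTop 4).and
    ((h1.eventually_ge_atTop 0).and ((h1.eventually_ge_atTop c).and h3))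
  obtain ⟨T, hT⟩ := Filter.eventually_atTop.1 h4
  refine ⟨T, fun M hM => ?_⟩
  obtain ⟨a1, a2, a3, a4⟩ := hT M hM
  refine ⟨a1, a3, ?_⟩
  rw [Real.rpow_natCast, Real.norm_of_nonneg (by positivity), Real.norm_of_nonneg (by positivity),
    one_mul] at a4
  exact a4

theorem hBVf (hBVc : Pool.Agent.Helper60.GP.StBVc) : StBVf := by
  intro ω hω k A
  obtain ⟨C, hC, m, h13⟩ := Pool.Agent.Helper90.MT.a13a (k ^ 2)
  set A' : ℕ := m + 2 + 2 * A with hA'
  obtain ⟨x₀, hbv⟩ := hBVc ω hω A' (4999 / 10000) (by norm_num)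
  obtain ⟨T, hT⟩ := bvf_large (A' + 2) (16 * C + 8)
  refine ⟨max T (⌈x₀⌉₊ + 100), fun M hM => ?_⟩
  obtain ⟨hM4, hLc, hLp⟩ := hT M ((le_max_left _ _).trans hM)
  have hMx : x₀ ≤ M := by
    have h1 : ⌈x₀⌉₊ + 100 ≤ M := (le_max_right _ _).trans hM
    have h2 : (⌈x₀⌉₊ : ℝ) ≤ M := by exact_mod_cast (by omega : ⌈x₀⌉₊ ≤ M)
    exact (Nat.le_ceil x₀).trans h2
  have hM100 : 100 ≤ M := by
    have h1 : ⌈x₀⌉₊ + 100 ≤ M := (le_max_right _ _).trans hM
    omega
  have hM1 : 1 ≤ M := by omega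
  have hMr : (1 : ℝ) ≤ M := by exact_mod_cast hM1
  have hM0 : (0 : ℝ) < M := by linarith
  set L := Real.log M with hL
  have hL8 : 8 ≤ L := by linarith
  have hL1 : 1 ≤ L := by linarith
  have hL0 : 0 < L := by linarith
  have hL4 : Real.log (4 * M) ≤ 2 * L := by
    rw [Real.log_mul (by norm_num) hM0.ne']
    have : Real.log 4 ≤ L := Real.log_le_log (by norm_num) (by exact_mod_cast hM4)
    linarith
  have hL40 : 0 ≤ Real.log (4 * M) := Real.log_nonneg (by linarith)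
  choose b hb using bvf_max ω M
  set E : ℕ → ℝ := fun q => bvfD ω M q (b q) with hE
  have hE0 : ∀ q, 0 ≤ E q := fun q => abs_nonneg _
  refine ⟨E, hE0, ?_, ?_⟩
  · intro q a hq _ ha
    exact (hb q hq).2 a ha
  set Q : ℕ := ⌊(M : ℝ) ^ (4999 / 10000 : ℝ)⌋₊ with hQ
  have hQr : (Q : ℝ) ≤ (M : ℝ) ^ (4999 / 10000 : ℝ) := Nat.floor_le (by positivity)
  have hQM : Q ≤ M := by
    have h1 : (M : ℝ) ^ (4999 / 10000 : ℝ) ≤ M := by
      calc (M : ℝ) ^ (4999 / 10000 : ℝ) ≤ (M : ℝ) ^ (1 : ℝ) :=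
            Real.rpow_le_rpow_of_exponent_le hMr (by norm_num)
        _ = M := Real.rpow_one _
    exact_mod_cast hQr.trans h1
  have hQ2 : 2 ≤ Q := by
    rw [hQ, Nat.le_floor_iff (by positivity)]
    have h1 : (100 : ℝ) ≤ M := by exact_mod_cast hM100
    calc ((2 : ℕ) : ℝ) ≤ (100 : ℝ) ^ (1 / 4 : ℝ) := by
          have h2 : ((2 : ℝ) ^ (4 : ℝ)) ^ (1 / 4 : ℝ) = 2 := by
            rw [← Real.rpow_mul (by norm_num)]
            norm_num
          have h3 : ((2 : ℝ) ^ (4 : ℝ)) ^ (1 / 4 : ℝ) ≤ (100 : ℝ) ^ (1 / 4 : ℝ) := by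
            refine Real.rpow_le_rpow (by positivity) ?_ (by norm_num)
            norm_num
          rw [h2] at h3
          exact_mod_cast h3
      _ ≤ (M : ℝ) ^ (1 / 4 : ℝ) := Real.rpow_le_rpow (by norm_num) h1 (by norm_num)
      _ ≤ (M : ℝ) ^ (4999 / 10000 : ℝ) :=
          Real.rpow_le_rpow_of_exponent_le hMr (by norm_num)
  -- the sum without weights
  have hsumE : ∑ q ∈ Icc 1 Q, E q ≤ 2 * (M / L ^ A') := by
    have h1 : ∑ q ∈ Icc 1 Q, E q ≤ ∑ q ∈ Icc 1 Q,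
        (Err ω M q (b q : ℤ) + 4 * √(M : ℝ) * Real.log (4 * M)) :=
      sum_le_sum fun q _ => bvf_disc_le hω hM1 q (b q)
    have h2 := hbv M hMx (fun q => (b q : ℤ)) (fun q hq =>
      Nat.isCoprime_iff_coprime.2 (hb q hq).1)
    rw [sum_add_distrib, sum_const, nsmul_eq_mul, Nat.card_Icc, Nat.add_sub_cancel] at h1
    have h3 : (Q : ℝ) * (4 * √(M : ℝ) * Real.log (4 * M)) ≤ M / L ^ A' := by
      rw [le_div_iff₀ (by positivity)]
      have e1 : √(M : ℝ) = (M : ℝ) ^ (1 / 2 : ℝ) := Real.sqrt_eq_rpow _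
      calc (Q : ℝ) * (4 * √(M : ℝ) * Real.log (4 * M)) * L ^ A'
          ≤ (M : ℝ) ^ (4999 / 10000 : ℝ) * (4 * (M : ℝ) ^ (1 / 2 : ℝ) * (2 * L)) * L ^ A' := by
            rw [e1]
            gcongr
        _ = ((M : ℝ) ^ (4999 / 10000 : ℝ) * (M : ℝ) ^ (1 / 2 : ℝ)) * (8 * L ^ (A' + 1)) := by
            ring
        _ ≤ ((M : ℝ) ^ (4999 / 10000 : ℝ) * (M : ℝ) ^ (1 / 2 : ℝ)) * L ^ (A' + 2) := by
            refine mul_le_mul_of_nonneg_left ?_ (by positivity)
            calc 8 * L ^ (A' + 1) ≤ L * L ^ (A' + 1) :=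
                  mul_le_mul_of_nonneg_right hL8 (by positivity)
              _ = L ^ (A' + 2) := by ring
        _ ≤ ((M : ℝ) ^ (4999 / 10000 : ℝ) * (M : ℝ) ^ (1 / 2 : ℝ)) *
            (M : ℝ) ^ (1 / 10000 : ℝ) := mul_le_mul_of_nonneg_left hLp (by positivity)
        _ = M := by
            rw [← Real.rpow_add hM0, ← Real.rpow_add hM0]
            norm_num
    calc _ ≤ _ := h1
      _ ≤ M / L ^ A' + M / L ^ A' := add_le_add h2 h3
      _ = _ := by ring
  -- the sum with squared weights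
  have hsumW : ∑ q ∈ Icc 1 Q, ((k : ℝ) ^ q.primeFactors.card) ^ 2 * E q ≤
      8 * C * M * L ^ (m + 1) := by
    calc ∑ q ∈ Icc 1 Q, ((k : ℝ) ^ q.primeFactors.card) ^ 2 * E q
        ≤ ∑ q ∈ Icc 1 Q, (4 * M * Real.log (4 * M)) *
            (((k ^ 2 : ℕ) : ℝ) ^ q.primeFactors.card / (q.totient : ℝ)) := by
          refine sum_le_sum fun q hq => ?_
          rw [mem_Icc] at hq
          have h1 := bvf_triv hω hM1 hq.1 (hq.2.trans hQM) (b q)
          calc ((k : ℝ) ^ q.primeFactors.card) ^ 2 * E q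
              ≤ ((k : ℝ) ^ q.primeFactors.card) ^ 2 *
                (4 * M * Real.log (4 * M) / q.totient) :=
                mul_le_mul_of_nonneg_left h1 (by positivity)
            _ = _ := by
                push_cast
                rw [← pow_mul, ← pow_mul, mul_comm 2]
                ring
      _ = (4 * M * Real.log (4 * M)) * ∑ q ∈ Icc 1 Q,
            (((k ^ 2 : ℕ) : ℝ) ^ q.primeFactors.card / (q.totient : ℝ)) := by rw [mul_sum]
      _ ≤ (4 * M * (2 * L)) * (C * L ^ m) := by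
          have h2 : Real.log Q ≤ L := Real.log_le_log (by exact_mod_cast (by omega : 0 < Q))
            (by exact_mod_cast hQM)
          have h3 : 0 ≤ Real.log Q := Real.log_nonneg (by exact_mod_cast (by omega : 1 ≤ Q))
          refine mul_le_mul ?_ ((h13 Q hQ2).trans ?_) (sum_nonneg fun q _ => by positivity)
            (by positivity)
          · exact mul_le_mul_of_nonneg_left hL4 (by positivity)
          · exact mul_le_mul_of_nonneg_left (pow_le_pow_left₀ h3 h2 m) hC.le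
      _ = _ := by ring
  -- Cauchy-Schwarz
  have hcs := Finset.sum_mul_sq_le_sq_mul_sq (Icc 1 Q)
    (fun q => (k : ℝ) ^ q.primeFactors.card * √(E q)) (fun q => √(E q))
  have e1 : ∀ q ∈ Icc 1 Q, (k : ℝ) ^ q.primeFactors.card * √(E q) * √(E q) =
      (k : ℝ) ^ q.primeFactors.card * E q := by
    intro q _
    rw [mul_assoc, Real.mul_self_sqrt (hE0 q)]
  have e2 : ∀ q ∈ Icc 1 Q, ((k : ℝ) ^ q.primeFactors.card * √(E q)) ^ 2 =
      ((k : ℝ) ^ q.primeFactors.card) ^ 2 * E q := by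
    intro q _
    rw [mul_pow, Real.sq_sqrt (hE0 q)]
  have e3 : ∀ q ∈ Icc 1 Q, √(E q) ^ 2 = E q := fun q _ => Real.sq_sqrt (hE0 q)
  rw [sum_congr rfl e1, sum_congr rfl e2, sum_congr rfl e3] at hcs
  have hfin : (∑ q ∈ Icc 1 Q, (k : ℝ) ^ q.primeFactors.card * E q) ^ 2 ≤ (M / L ^ A) ^ 2 := by
    have h1 : 0 ≤ ∑ q ∈ Icc 1 Q, E q := sum_nonneg fun q _ => hE0 q
    calc _ ≤ _ := hcs
      _ ≤ (8 * C * M * L ^ (m + 1)) * (2 * (M / L ^ A')) :=
          mul_le_mul hsumW hsumE h1 (by positivity)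
      _ = (16 * C) * (M ^ 2 / (L ^ A) ^ 2) / L := by
          have e4 : L ^ A' = L ^ (m + 1) * L * (L ^ A) ^ 2 := by
            rw [hA', ← pow_mul, ← pow_succ, ← pow_add]
            congr 1
            ring
          rw [e4]
          field_simp
          ring
      _ ≤ L * (M ^ 2 / (L ^ A) ^ 2) / L := by
          refine div_le_div_of_nonneg_right ?_ hL0.le
          exact mul_le_mul_of_nonneg_right (by linarith) (by positivity)
      _ = _ := by
          field_simp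
  exact (sq_le_sq₀ (sum_nonneg fun q _ => mul_nonneg (by positivity) (hE0 q)) (by positivity)).1 hfin

end Pool.Agent.Helper27.BG
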