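import Pool.Agent.Helper27.BG.St1
import Pool.Agent.Helper90.MT.S1
import Pool.Agent.Helper90.MT.QD
import Pool.Agent.Helper90.MT.CntD
import Pool.Agent.Helper90.MT.Tensor
import Pool.Agent.Helper90.MT.Var
import Pool.Agent.Helper90.MT.FormD
import Pool.Agent.Helper90.MT.Til1
import Pool.Agent.Helper90.MT.Til2
import Pool.Agent.Helper90.MT.Til3
import Pool.Agent.Helper90.MT.Hlow

/-! BG module MAJ: the Selberg majorant. -/

set_option autoImplicit false

noncomputable section

namespace Pool.Agent.Helper27.BG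

open Finset
open Pool.Agent.Helper90.MT (lam mat wt szA prt szU VV DD piDD Ok EqD Avd HH Ytil offD MP MD TT)

section Maj
variable {α ι : Type} [Fintype α] [DecidableEq α] [Fintype ι] [DecidableEq ι]

theorem maj_off_avd {D : Finset ι} {e : α → Option ι} (h : Avd D e) : offD D e = e := by
  funext i
  rcases he : e i with _ | h'
  · exact Pool.Agent.Helper90.MT.til_offD_none he
  · exact Pool.Agent.Helper90.MT.til_offD_not he fun hD => h i h' hD he

open Classical in
theorem maj_VV (pr : α → ℕ) (D : Finset ι) (U : (α → Option ι) → ℝ)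
    (hU : ∀ a, U a ≠ 0 → Avd D a) (a : α → Option ι) (ha : Avd D a) : VV pr D U a = U a := by
  rw [Pool.Agent.Helper90.MT.til_VV pr D U a ha]
  rw [sum_eq_single a]
  · have hw : Pool.Agent.Helper90.MT.til_w pr a a = 1 := by
      unfold Pool.Agent.Helper90.MT.til_w
      refine prod_eq_one fun i _ => ?_
      rw [if_neg]
      rintro ⟨h1, h2⟩
      exact h2 h1
    rw [hw, one_mul]
  · intro e he hne
    rw [mem_filter] at he
    by_cases h0 : U e = 0
    · rw [h0, mul_zero]
    · exfalso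
      apply hne
      rw [← he.2, maj_off_avd (hU e h0)]
  · intro h
    exfalso
    apply h
    rw [mem_filter]
    exact ⟨mem_univ _, maj_off_avd ha⟩

theorem maj_LF {pr : α → ℕ} {sh : ι → ℕ} {m : ι} {R' : ℝ} (U : (α → Option ι) → ℝ)
    (hpr : ∀ i, 0 < pr i) (hR : 1 ≤ R') {n : ℕ} (hn : ∀ i, ¬ pr i ∣ n + sh m) :
    LF pr sh U n = LF pr sh (Ytil pr {m} R' U) n := by
  classical
  unfold LF
  refine Finset.sum_congr rfl fun b _ => ?_
  by_cases hb : mat pr sh b n
  · rw [if_pos hb, if_pos hb]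
    refine (Pool.Agent.Helper90.MT.til1 α ι pr {m} R' U b hpr hR ?_).symm
    intro i h hh hbi
    rw [mem_singleton] at hh
    subst hh
    exact hn i (hb i h hbi)
  · rw [if_neg hb, if_neg hb]

open Classical in
/-- sums of products over the assignments avoiding `m` -/
theorem maj_sum (m : ι) (f : α → Option ι → ℝ) :
    ∑ a ∈ univ.filter (fun a : α → Option ι => Avd {m} a), ∏ i, f i (a i) =
      ∏ i, ∑ o ∈ univ.filter (fun o : Option ι => o ≠ some m), f i o := by
  rw [prod_univ_sum]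
  refine sum_congr ?_ fun _ _ => rfl
  ext a
  rw [mem_filter, Fintype.mem_piFinset]
  constructor
  · rintro ⟨_, h⟩ i
    rw [mem_filter]
    exact ⟨mem_univ _, h i m (mem_singleton_self m)⟩
  · intro h
    refine ⟨mem_univ _, fun i h' hh => ?_⟩
    rw [mem_singleton] at hh
    subst hh
    exact (mem_filter.1 (h i)).2

open Classical in
theorem maj_loc (m : ι) (c : ℝ) :
    ∑ o ∈ univ.filter (fun o : Option ι => o ≠ some m), (if o = none then 1 else c) =
      1 + ((Fintype.card ι - 1 : ℕ) : ℝ) * c := by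
  rw [sum_filter, Fintype.sum_option]
  have h1 : ∑ h : ι, (if (some h : Option ι) ≠ some m then (if (some h : Option ι) = none then 1
      else c) else 0) = ((Fintype.card ι - 1 : ℕ) : ℝ) * c := by
    have h2 : ∀ h : ι, (if (some h : Option ι) ≠ some m then
        (if (some h : Option ι) = none then (1 : ℝ) else c) else 0) =
        if h ≠ m then c else 0 := by
      intro h
      by_cases hm : h = m
      · subst hm
        simp
      · simp [hm]
    simp only [h2]
    rw [← sum_filter, sum_const, nsmul_eq_mul, filter_ne', card_erase_of_mem (mem_univ m),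
      card_univ]
  rw [h1]
  simp

theorem maj_S_ge (pr : α → ℕ) {R' : ℝ} (hR : 1 ≤ R') :
    1 ≤ ∑ d ∈ (DD pr).filter (fun d : ℕ => (d : ℝ) ≤ R'), 1 / (d : ℝ) := by
  classical
  have h1 : 1 ∈ (DD pr).filter (fun d : ℕ => (d : ℝ) ≤ R') := by
    rw [mem_filter]
    refine ⟨?_, by simpa using hR⟩
    unfold DD
    exact mem_image.2 ⟨∅, by simp, by simp⟩
  calc (1 : ℝ) = 1 / ((1 : ℕ) : ℝ) := by simp
    _ ≤ _ := Finset.single_le_sum (f := fun d : ℕ => 1 / (d : ℝ))
      (fun d _ => by positivity) h1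

/-- the sum of `(∏ (1 + 1/p) - 1) / szA` -/
theorem maj_err (pr : α → ℕ) (hp : ∀ i, (pr i).Prime) (m : ι) :
    (open Classical in
    ∑ a ∈ univ.filter (fun a : α → Option ι => Avd {m} a),
      ((∏ i, (if a i = none then 1 else (1 + 1 / (pr i : ℝ)))) - 1) * (1 / szA pr a)) ≤
      Er pr (Fintype.card ι - 1) (Fintype.card ι) := by
  classical
  have hinv : ∀ a : α → Option ι, 1 / (szA pr a : ℝ) =
      ∏ i, (if a i = none then (1 : ℝ) else 1 / (pr i : ℝ)) := by
    intro a
    rw [Pool.Agent.Helper90.MT.til_szA_cast, one_div, ← prod_inv_distrib]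
    refine prod_congr rfl fun i _ => ?_
    split_ifs
    · exact inv_one
    · exact (one_div _).symm
  have e1 : ∑ a ∈ univ.filter (fun a : α → Option ι => Avd {m} a),
      ((∏ i, (if a i = none then 1 else (1 + 1 / (pr i : ℝ)))) - 1) * (1 / szA pr a) =
      ∑ a ∈ univ.filter (fun a : α → Option ι => Avd {m} a),
        ∏ i, (if a i = none then (1 : ℝ) else (1 + 1 / (pr i : ℝ)) * (1 / (pr i : ℝ))) -
      ∑ a ∈ univ.filter (fun a : α → Option ι => Avd {m} a),
        ∏ i, (if a i = none then (1 : ℝ) else 1 / (pr i : ℝ)) := by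
    rw [← sum_sub_distrib]
    refine sum_congr rfl fun a _ => ?_
    rw [hinv a, sub_mul, one_mul, ← prod_mul_distrib]
    congr 1
    refine prod_congr rfl fun i _ => ?_
    split_ifs
    · norm_num
    · rfl
  rw [e1, maj_sum m (fun i o => if o = none then (1 : ℝ) else
    (1 + 1 / (pr i : ℝ)) * (1 / (pr i : ℝ))),
    maj_sum m (fun i o => if o = none then (1 : ℝ) else 1 / (pr i : ℝ))]
  unfold Er
  have hK : ((Fintype.card ι - 1 : ℕ) : ℝ) ≤ (Fintype.card ι : ℝ) := by
    have : Fintype.card ι - 1 ≤ Fintype.card ι := Nat.sub_le _ _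
    exact_mod_cast this
  have e2 : ∏ i, ∑ o ∈ univ.filter (fun o : Option ι => o ≠ some m),
      (if o = none then (1 : ℝ) else 1 / (pr i : ℝ)) =
      ∏ i, (1 + ((Fintype.card ι - 1 : ℕ) : ℝ) / pr i) := by
    refine prod_congr rfl fun i _ => ?_
    rw [maj_loc m (1 / (pr i : ℝ))]
    ring
  have e3 : ∏ i, ∑ o ∈ univ.filter (fun o : Option ι => o ≠ some m),
      (if o = none then (1 : ℝ) else (1 + 1 / (pr i : ℝ)) * (1 / (pr i : ℝ))) ≤
      ∏ i, (1 + ((Fintype.card ι - 1 : ℕ) : ℝ) / pr i + (Fintype.card ι : ℝ) /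
        (pr i : ℝ) ^ 2) := by
    refine prod_le_prod (fun i _ => ?_) fun i _ => ?_
    · refine sum_nonneg fun o _ => ?_
      split_ifs
      · norm_num
      · positivity
    · rw [maj_loc m ((1 + 1 / (pr i : ℝ)) * (1 / (pr i : ℝ)))]
      have hpos : (0 : ℝ) < pr i := by exact_mod_cast (hp i).pos
      have h1 : ((Fintype.card ι - 1 : ℕ) : ℝ) * ((1 + 1 / (pr i : ℝ)) * (1 / (pr i : ℝ))) =
          ((Fintype.card ι - 1 : ℕ) : ℝ) / pr i + ((Fintype.card ι - 1 : ℕ) : ℝ) /
            (pr i : ℝ) ^ 2 := by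
        field_simp
      rw [h1]
      have h2 : ((Fintype.card ι - 1 : ℕ) : ℝ) / (pr i : ℝ) ^ 2 ≤
          (Fintype.card ι : ℝ) / (pr i : ℝ) ^ 2 :=
        div_le_div_of_nonneg_right hK (by positivity)
      linarith
  rw [e2]
  linarith

end Maj

theorem hMaj (hLm : StLm) : StMaj := by
  classical
  intro α ι _ _ _ _ pr sh W v m U N η X V B Z R' hok hX hV hE hη hB hUA hUZ hZ hR hσ
  set σ : ℝ := ∑ i, 1 / (pr i : ℝ) ^ 2 with hσd
  set K := Fintype.card ι with hK
  set D : Finset ι := {m} with hDd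
  set U' := Ytil pr D R' U with hU'
  set S : ℝ := ∑ d ∈ (DD pr).filter (fun d : ℕ => (d : ℝ) ≤ R'), 1 / (d : ℝ) with hS
  have hpr : ∀ i, 0 < pr i := fun i => (hok.prime i).pos
  have hS1 : 1 ≤ S := maj_S_ge pr hR
  have hW : (0 : ℝ) < W := by exact_mod_cast hok.W0
  have hB0 : 0 ≤ B := (abs_nonneg _).trans (hB (fun _ => none))
  have hcard : #D ≤ 2 := by rw [hDd, card_singleton]; norm_num
  have hS1' : Pool.Agent.Helper90.MT.StS1 := Pool.Agent.Helper90.MT.s1
    (Pool.Agent.Helper90.MT.qD Pool.Agent.Helper90.MT.tensor Pool.Agent.Helper90.MT.var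
      Pool.Agent.Helper90.MT.formD) Pool.Agent.Helper90.MT.cntD
  -- first step
  have e1 : ∑ n ∈ N.filter (fun n => n ≡ v [MOD W] ∧ ∀ i, ¬ pr i ∣ n + sh m),
      η n * LF pr sh U n ^ 2 ≤ X / W * ∑ a, U' a ^ 2 / szA pr a +
        V * (∑ b, |lam pr U' b|) ^ 2 := by
    have e2 : ∑ n ∈ N.filter (fun n => n ≡ v [MOD W] ∧ ∀ i, ¬ pr i ∣ n + sh m),
        η n * LF pr sh U n ^ 2 =
        ∑ n ∈ N.filter (fun n => n ≡ v [MOD W] ∧ ∀ i, ¬ pr i ∣ n + sh m),
        η n * wt pr sh U' n := by
      refine Finset.sum_congr rfl fun n hn => ?_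
      rw [maj_LF U hpr hR (mem_filter.1 hn).2.2]
      rfl
    rw [e2]
    refine le_trans ?_ (hS1' α ι pr sh W v U' N η X V hok hX hV hE)
    refine Finset.sum_le_sum_of_subset_of_nonneg ?_ fun n _ _ => ?_
    · intro n hn
      rw [mem_filter] at hn ⊢
      exact ⟨hn.1, hn.2.1⟩
    · refine mul_nonneg (hη n) ?_
      unfold wt
      exact sq_nonneg _
  have h8 : 0 < 1 - σ := by linarith
  have h10 : 0 < (1 - σ) * S := mul_pos h8 (by linarith)
  -- the main term
  have hmain : ∑ a, U' a ^ 2 / szA pr a ≤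
      ((1 - σ) * S)⁻¹ * (∑ a, U a ^ 2 / szA pr a + B ^ 2 * Er pr (K - 1) K) := by
    rw [hU', Pool.Agent.Helper90.MT.til2 α ι pr D R' U hpr hR]
    have hterm : ∀ a ∈ univ.filter (fun a : α → Option ι => Avd D a),
        VV pr D U a ^ 2 / (HH pr D R' a * szA pr a) ≤ ((1 - σ) * S)⁻¹ *
          (U a ^ 2 / szA pr a + B ^ 2 *
            (((∏ i, (if a i = none then 1 else (1 + 1 / (pr i : ℝ)))) - 1) *
              (1 / szA pr a))) := by
      intro a ha
      rw [mem_filter] at ha
      rw [maj_VV pr D U (fun a h => hUA a h) a ha.2]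
      have h9 := Pool.Agent.Helper90.MT.hlow α ι pr D R' a hok.prime hok.inj hcard hR
      rw [hDd, card_singleton, pow_one] at h9
      simp only [pow_one] at h9
      set Pa : ℝ := ∏ i, (if a i = none then 1 else (1 + 1 / (pr i : ℝ))) with hPa
      have hP1 : 1 ≤ Pa := by
        have : ∀ i ∈ (univ : Finset α), (1 : ℝ) ≤
            (if a i = none then 1 else (1 + 1 / (pr i : ℝ))) := by
          intro i _
          split_ifs
          · exact le_rfl
          · have : (0 : ℝ) ≤ 1 / (pr i : ℝ) := by positivity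
            linarith
        calc (1 : ℝ) = ∏ i : α, (1 : ℝ) := by simp
          _ ≤ Pa := prod_le_prod (fun _ _ => by norm_num) this
      have hH1 : 1 ≤ HH pr D R' a := Pool.Agent.Helper90.MT.til_HH_ge pr D R' a hR
      have hH : 0 < HH pr D R' a := by linarith
      have hinv : (HH pr D R' a)⁻¹ ≤ ((1 - σ) * S)⁻¹ * Pa := by
        rw [inv_mul_eq_div, le_div_iff₀ h10, inv_mul_le_iff₀ hH]
        exact h9
      have hsz : (0 : ℝ) ≤ U a ^ 2 / szA pr a := by positivity
      have hsz1 : (0 : ℝ) ≤ 1 / szA pr a := by positivity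
      have hinv0 : 0 ≤ ((1 - σ) * S)⁻¹ := inv_nonneg.2 h10.le
      have hU2 : U a ^ 2 ≤ B ^ 2 := sq_le_sq' (by linarith [neg_abs_le (U a), hB a])
        (by linarith [le_abs_self (U a), hB a])
      calc U a ^ 2 / (HH pr D R' a * szA pr a) =
            (HH pr D R' a)⁻¹ * (U a ^ 2 / szA pr a) := by
              rw [div_mul_eq_div_div_swap, div_eq_mul_inv (_ / _) (HH pr D R' a), mul_comm]
        _ ≤ (((1 - σ) * S)⁻¹ * Pa) * (U a ^ 2 / szA pr a) :=
              mul_le_mul_of_nonneg_right hinv hsz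
        _ = ((1 - σ) * S)⁻¹ * (U a ^ 2 / szA pr a + (Pa - 1) * (U a ^ 2 * (1 / szA pr a))) := by
              ring
        _ ≤ ((1 - σ) * S)⁻¹ * (U a ^ 2 / szA pr a + (Pa - 1) * (B ^ 2 * (1 / szA pr a))) := by
              refine mul_le_mul_of_nonneg_left ?_ hinv0
              refine add_le_add le_rfl ?_
              refine mul_le_mul_of_nonneg_left ?_ (by linarith)
              exact mul_le_mul_of_nonneg_right hU2 hsz1
        _ = _ := by ring
    refine (Finset.sum_le_sum hterm).trans ?_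
    rw [← Finset.mul_sum, Finset.sum_add_distrib, ← Finset.mul_sum]
    refine mul_le_mul_of_nonneg_left ?_ (inv_nonneg.2 h10.le)
    refine add_le_add ?_ ?_
    · refine Finset.sum_le_sum_of_subset_of_nonneg (filter_subset _ _) fun a _ _ => ?_
      positivity
    · refine mul_le_mul_of_nonneg_left ?_ (sq_nonneg _)
      exact maj_err pr hok.prime m
  -- the error term
  have hZR : 1 ≤ Z * R' := one_le_mul_of_one_le_of_one_le hZ hR
  have hprop : ∀ e, U' e ≠ 0 → (prt pr e m : ℝ) ≤ R' ∧ U (offD D e) ≠ 0 := by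
    intro e he
    rw [hU'] at he
    unfold Ytil at he
    by_cases hc : ∀ h ∈ D, (prt pr e h : ℝ) ≤ R'
    · rw [if_pos hc, maj_VV pr D U (fun a h => hUA a h) _
        (Pool.Agent.Helper90.MT.til_offD_avd D e)] at he
      exact ⟨hc m (mem_singleton_self m), fun h => he (by rw [h, zero_div])⟩
    · rw [if_neg hc] at he
      exact absurd rfl he
  have hb1 : ∀ e, |U' e| ≤ B := by
    intro e
    rw [hU']
    unfold Ytil
    split_ifs with hc
    · rw [maj_VV pr D U (fun a h => hUA a h) _ (Pool.Agent.Helper90.MT.til_offD_avd D e)]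
      have hH1 : 1 ≤ HH pr D R' (offD D e) := Pool.Agent.Helper90.MT.til_HH_ge pr D R' _ hR
      rw [abs_div, abs_of_pos (show 0 < HH pr D R' (offD D e) by linarith)]
      exact (div_le_self (abs_nonneg _) hH1).trans (hB _)
    · rw [abs_zero]
      exact hB0
  have hb2 : ∀ e, U' e ≠ 0 → (szA pr e : ℝ) ≤ Z * R' := by
    intro e he
    obtain ⟨h11, h12⟩ := hprop e he
    have h13 := Pool.Agent.Helper90.MT.til3_szA pr D e
    rw [hDd, prod_singleton, ← hDd] at h13
    rw [h13, Nat.cast_mul]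
    exact mul_le_mul (hUZ _ h12) h11 (Nat.cast_nonneg _) (by linarith)
  have hl := (hLm α ι pr U' B (Z * R') hok.prime hok.inj hZR hb1 hb2).2.2
  have hlam0 : 0 ≤ ∑ b, |lam pr U' b| := Finset.sum_nonneg fun b _ => abs_nonneg _
  refine e1.trans (add_le_add ?_ ?_)
  · exact mul_le_mul_of_nonneg_left hmain (div_nonneg hX hW.le)
  · refine mul_le_mul_of_nonneg_left ?_ hV
    exact pow_le_pow_left₀ hlam0 hl 2

end Pool.Agent.Helper27.BG
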